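import Pool.Agent.Helper204.EHMain

set_option autoImplicit false

/-!
At `t = 1` the operators `Θ_{a,b}(f_d)` act as multiplication by `f_d^{(a,b)}(x;q,1)`.

The signs `σ, ε, δ` and the index `j` select the normalisation of the operators `Q_{mn}`:
`Q_{1,0} = ε D_j`, `Q_{0,1} = δ e_1`, `Q_{mn} = (σ/M) [Q_{uv}, Q_{kl}]`. The literal text of the
problem is `σ = 1, ε = -1, δ = 1, j = 1`; the degree-consistent form is `j = 0` (that is
`Q_{1,0} = ± D_0`). The theorem is proved for all of them.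
-/

namespace Pool.Agent.Results.MP_478849_co.MultAtOne

open Pool.Agent.Helper204.EH MvPolynomial

/-! Sanity checks of the definitions. -/

theorem e_one_eq : e 1 = X 1 := by
  rw [e_succ, Fin.sum_univ_eq_sum_range
    (fun i => (-1) ^ i * e (0 - i) * p (Nat.succPNat i)) (0 + 1)]
  simp [e_zero]
  rfl

theorem qfun_one_eq : qfun 1 = e 1 := by rw [qfun_one, e_one_eq]

/-- `D_k(1) = (-1)^k e_k`. -/
theorem D_one (k : ℕ) : D (k : ℤ) 1 = (-1) ^ k * e k := by
  rw [D_eq, map_one, ← Polynomial.C_1, ← Polynomial.monomial_zero_left, T_monomial, one_mul]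
  unfold eCoeff
  simp

/-- `[D_k, e_1] = M D_{k+1}`. -/
theorem D_comm (k : ℤ) (g : Lam) : D k (e 1 * g) - e 1 * D k g = M • D (k + 1) g := by
  rw [e_one_eq, D_eq, D_eq, D_eq, map_mul, pleth_X, add_mul, map_add,
    ← Polynomial.monomial_zero_left, T_monomial_mul, T_monomial_mul]
  simp only [Nat.cast_zero, add_zero, PNat.one_coe, Nat.cast_one, pow_one]
  rw [add_sub_cancel_left, MvPolynomial.smul_eq_C_mul]
  rfl

/-- `Q_{1,1} = σεδ D_{j+1}`. -/
theorem Q_one_one (σ ε δ : ℤˣ) (j : ℕ) (g : Lam) :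
    Q σ ε δ j 1 1 g = (((σ * ε * δ : ℤˣ) : ℤ) : F) • D ((j : ℤ) + 1) g := by
  have h1 : kk 1 1 = 0 := by
    have := (split_bounds 1 1 one_pos one_pos).1
    omega
  have h2 : ll 1 1 = 1 := by
    have h3 := split_bounds 1 1 one_pos one_pos
    omega
  rw [Q_step σ ε δ j 1 1 one_pos one_pos, h1, h2, Nat.sub_self, Q_zero]
  have h4 := Q_succ_zero σ ε δ j 0
  rw [zero_add] at h4
  rw [Nat.sub_zero, h4, qfun_one_eq]
  simp only [← Int.cast_smul_eq_zsmul F, LinearMap.smul_apply, LinearMap.sub_apply,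
    Module.End.mul_apply, mulOp_apply, map_smul, mul_one, pow_one]
  have h5 := D_comm (j : ℤ) g
  have h6 : D (j : ℤ) (e 1 * g) = e 1 * D (j : ℤ) g + M • D ((j : ℤ) + 1) g := by
    rw [← h5]; ring
  rw [h6]
  have hM : M ≠ 0 := by
    rw [M_eq]
    exact mul_ne_zero IsU.one_sub_q.ne_zero hb_ne_zero
  have h7 : (C M⁻¹ : Lam) * C M = 1 := by rw [← C_mul, inv_mul_cancel₀ hM, C_1]
  simp only [MvPolynomial.smul_eq_C_mul, Units.val_mul, Int.cast_mul, C_mul]
  linear_combination (C ((σ : ℤ) : F) * C ((ε : ℤ) : F) * C ((δ : ℤ) : F) *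
    D ((j : ℤ) + 1) g) * h7

/-- The second alternative in the hypothesis of the theorem holds for every `f_d` whose
coordinates in the basis `q_μ` are regular at `t = 1`. -/
theorem regular_of_coordinates (σ ε δ : ℤˣ) (j a b : ℕ) {d : ℕ} (c : Nat.Partition d → F)
    (hc : ∀ μ, (RatFunc.denom (c μ)).eval 1 ≠ 0) : RegularAtOne (fab σ ε δ j a b c) := by
  have h3 : GoodAll (Theta σ ε δ j a b c) :=
    GoodAll.sum _ _ fun μ _ => (QPart_good σ ε δ j a b μ).smul (hc μ)
  exact (h3 0).zero 1 L.one_mem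

/-- **Theorem.** Let `f_d = ∑_μ c_μ q_μ` be a seed (or, more generally, let `f_d^{(1,1)}` be
regular at `t = 1`). Then for all coprime `a, b ≥ 1` and every symmetric function `g` with
coefficients in `ℚ(q)`, `Θ_{a,b}(f_d)(g)` is regular at `t = 1` and
`Θ_{a,b}(f_d)(g) |_{t=1} = f_d^{(a,b)}(x;q,1) g(x)`. -/
theorem result (σ ε δ : ℤˣ) (j d : ℕ) (c : Nat.Partition d → F)
    (hc : IsSeed σ ε δ j c ∨ RegularAtOne (fab σ ε δ j 1 1 c))
    (a b : ℕ) (_ha : 1 ≤ a) (_hb : 1 ≤ b) (_hab : Nat.Coprime a b) (g : MvPolynomial ℕ+ K) :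
    RegularAtOne (app (Theta σ ε δ j a b c) (lift g)) ∧
      atOne (app (Theta σ ε δ j a b c) (lift g)) = atOne (fab σ ε δ j a b c) * g :=
  main σ ε δ j d c hc a b g

end Pool.Agent.Results.MP_478849_co.MultAtOne
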